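import Pool.Agent.Lib.MP_4b91fc_lc.Bound

set_option autoImplicit false

/-!
# Exact counting of unlabelled graphs, faster than the number of partitions

For every `c < 1 / 2` one deterministic multi-stack machine computes, from the unary word `1 ^ n`,
the binary word of the number of isomorphism classes of graphs on `n` vertices in at most
`exp (C + √n * exp (-c * √(log n * log log n)))` steps.  (Summing Burnside's formula over the
cycle types of the permutations takes at least as many steps as there are partitions of `n`, that
is `exp ((π √(2/3) + o(1)) √n)`.)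

The algorithm chooses the cycles in the order of the largest prime factor of their lengths, from
large to small; once all cycles whose length is divisible by the odd prime `p` have been chosen, `p`
is stripped from the lengths of the chosen cycles.  So the states kept are multisets of `p`-smooth
numbers with sum at most `n / p`.
-/

namespace Pool.Agent.Results.MP_4b91fc_lc.FasterThanBurnside

/-- isomorphism of graphs on `n` vertices -/
def isomorphic (n : ℕ) : Setoid (SimpleGraph (Fin n)) where
  r G H := Nonempty (G ≃g H)
  iseqv := ⟨fun _ => ⟨SimpleGraph.Iso.refl⟩, fun ⟨e⟩ => ⟨e.symm⟩, fun ⟨e⟩ ⟨f⟩ => ⟨e.trans f⟩⟩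

/-- the number of isomorphism classes of graphs on `n` vertices -/
noncomputable def numUnlabelled (n : ℕ) : ℕ := Nat.card (Quotient (isomorphic n))

theorem result : ∀ c : ℝ, c < 1 / 2 →
    ∃ (tm : Turing.FinTM2) (e₀ : tm.Γ tm.k₀ ≃ Bool) (e₁ : tm.Γ tm.k₁ ≃ Bool) (C : ℝ),
      ∀ n : ℕ, ∃ t : ℕ,
        (t : ℝ) ≤ Real.exp (C + √n * Real.exp (-c * √(Real.log n * Real.log (Real.log n)))) ∧
        Nonempty (Turing.TM2OutputsInTime tm ((List.replicate n true).map e₀.symm)
          (some ((Nat.bits (numUnlabelled n)).map e₁.symm)) t) :=
  Pool.Agent.Lib.MP_4b91fc_lc.main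

end Pool.Agent.Results.MP_4b91fc_lc.FasterThanBurnside
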