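import Pool.Agent.Lib.MP_4b91fc_lc.GH.Main

set_option autoImplicit false

/-!
# Exact counting of unlabelled graphs is complete for `#P_1`

`U_n` (`numUnlabelled n`) is the number of isomorphism classes of graphs on `n` vertices.  `#P_1`
(`IsSharpP1`) is the class of the functions `f` such that `f n` is the number of accepting computations
on the input `1 ^ n` of a nondeterministic polynomial-time Turing machine; these machines (`NTM`) are
defined in `Pool/Agent/Lib/MP_4b91fc_lc/GH/Machine.lean`.  Polynomial time is
`Turing.TM2ComputableInPolyTime` of Mathlib.

* (membership) `n! U_n` is in `#P_1`;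
* (hardness) every `f` in `#P_1` is reducible to `U` by a polynomial-time truth-table reduction: there
  are a polynomial `p` and a function `G` on words, computable in polynomial time, such that `G` maps
  the word coding `n, U_0, ..., U_{p(n)}` (`query`) to the binary digits of `f n`, for all `n`;
* so `1 ^ n ↦ U_n` is computable in polynomial time if and only if all functions in `#P_1` are.

Proof of the hardness.  Burnside's lemma: `n! U_n = ∑ n!/z_μ 2^{c(μ)}` over the partitions `μ` of `n`,
`c(μ)` the number of orbits on pairs.  For large `N`, the digits in base `2 ^ N` of `N! U_N / 2^{N(N-1)/2}`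
are polynomials in `N` whose coefficients are the sums over the partitions of `u` with `l` parts, all
different from `1`; the same is done for parts `k` in place of `1`, and gives the sums over the partitions
with prescribed values of `∑_x gcd(k, x)`, for finitely many `k`.  If the `k` are products of large primes
of different orders of magnitude, one can read off the weighted number of tuples of sets of pairwise
coprime numbers with prescribed cardinalities, sums, and relations (divides into, coprime).  Words with
local constraints (tableaux of a Turing machine) are coded by such tuples, using consecutive primes and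
matchings of smallest sum.
-/

namespace Pool.Agent.Results.MP_4b91fc_lc.SharpP1Complete

open Pool.Agent.Lib.MP_4b91fc_lc.GH (IsSharpP1)
open Turing

open scoped Nat

/-- isomorphism of graphs on `n` vertices -/
def isomorphic (n : ℕ) : Setoid (SimpleGraph (Fin n)) where
  r G H := Nonempty (G ≃g H)
  iseqv := ⟨fun _ => ⟨SimpleGraph.Iso.refl⟩, fun ⟨e⟩ => ⟨e.symm⟩, fun ⟨e⟩ ⟨f⟩ => ⟨e.trans f⟩⟩

/-- the number of isomorphism classes of graphs on `n` vertices -/
noncomputable def numUnlabelled (n : ℕ) : ℕ := Nat.card (Quotient (isomorphic n))

/-- the word coding a number `n` and a list of numbers: `1 ^ n`, `0`, then for each number its binary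
digits (least significant first), each digit `b` written as `1 b`, and a final `0` -/
def query (n : ℕ) (u : List ℕ) : List Bool :=
  List.replicate n true ++ false ::
    u.flatMap (fun v => (Nat.bits v).flatMap (fun b => [true, b]) ++ [false])

theorem result :
    IsSharpP1 (fun n => n ! * numUnlabelled n) ∧
    (∀ f : ℕ → ℕ, IsSharpP1 f →
      ∃ (p : Polynomial ℕ) (G : List Bool → List Bool),
        Nonempty (TM2ComputableInPolyTime (fun w : List Bool => w) (fun w : List Bool => w) G) ∧
        ∀ n : ℕ, G (query n ((List.range (p.eval n + 1)).map numUnlabelled)) = Nat.bits (f n)) ∧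
    (Nonempty (TM2ComputableInPolyTime (fun n : ℕ => List.replicate n true) Nat.bits
        numUnlabelled) ↔
      ∀ f : ℕ → ℕ, IsSharpP1 f →
        Nonempty (TM2ComputableInPolyTime (fun n : ℕ => List.replicate n true) Nat.bits f)) :=
  ⟨Pool.Agent.Lib.MP_4b91fc_lc.GH.mem_sharp, Pool.Agent.Lib.MP_4b91fc_lc.GH.hard,
    Pool.Agent.Lib.MP_4b91fc_lc.GH.iff_sharp⟩

end Pool.Agent.Results.MP_4b91fc_lc.SharpP1Complete
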